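import Pool.Agent.H757L.Bridge
import Pool.Agent.H757L.Fin
import Pool.Agent.H757L.Cof
import Pool.Agent.H757L.Quo
import Pool.Agent.H757L.Trv
import Pool.Agent.H757L.Typ
import Pool.Agent.H757L.Iso
import Pool.Agent.H757L.Unq
import Pool.Agent.H757L.Gen
import Pool.Agent.H757L.Cos
import Pool.Agent.H757L.Deg
import Pool.Agent.H757L.Dei
import Pool.Agent.H757L.Hec
import Pool.Agent.H757L.Cfi
import Pool.Agent.H757L.Adm
import Pool.Agent.H757L.Cnj
import Pool.Agent.H757L.Ufi
import Pool.Agent.H757L.Iwa
import Pool.Agent.H757L.Idc
import Pool.Agent.H757L.Adc
import Pool.Agent.H757L.Cla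
import Pool.Agent.H757L.Itg
import Pool.Agent.H757L.Ext
import Pool.Agent.H757L.Trz
import Pool.Agent.H757L.Nfu
import Pool.Agent.H757L.Wfn
import Pool.Agent.H757L.Wun
import Pool.Agent.H757L.Ph1
import Pool.Agent.H757L.Av1
import Pool.Agent.H757L.Red
import Pool.Agent.H757L.Ffu
import Pool.Agent.H757L.Tre
import Pool.Agent.H757L.Ph2
import Pool.Agent.H757L.Cs1
import Pool.Agent.H757L.Cs2
import Pool.Agent.H757L.Cst
import Pool.Agent.H757L.Aut
import Pool.Agent.H757L.Prd
import Pool.Agent.H757L.Tri
import Pool.Agent.H757L.Rea
import Pool.Agent.H757L.Rec

/-!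
# No local lifting compatible with all the global liftings

The question is whether for every local field `F`, quasi-split group `𝐆` and representation `ρ` of its
L-group there is a map `l : Irr(G) → Irr(GL(n, F))` which gives the component at `𝔭` of the (isobaric) global
lifting of *every* automorphic representation of a group over a global field with the localisation
`𝐆` at `𝔭`. We prove that the answer is negative, already for

  `K = 𝔽₂(t)`, `𝔭 = ∞`, `F = 𝔽₂((1/t))`, `𝐆 = GL₂`, `ρ` = the identity representation of `GL(2, ℂ)`:

there are two automorphic representations `π₁`, `π₂` of `GL₂(𝔸)` with isomorphic components at `∞` (the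
Steinberg representation of `GL₂(F)`) such that the components at `∞` of the global liftings `l_ρ(π₁)`,
`l_ρ(π₂)` are not isomorphic.

* `π₁` is the Steinberg representation at `∞` and the trivial representation at all the finite places. It is a
  subquotient of the space of the automorphic forms: it is generated by a function `φ` on
  `GL₂(K)\GL₂(𝔸)/∏ GL₂(O_v)`, i.e. on the quotient of the tree of `GL₂(F)` by `GL₂(𝔽₂[t])`, modulo the
  constants (the sum of `φ` over the three oriented edges with given origin is the constant `1`). It is
  unramified outside `∞`, and its global lifting is the trivial representation of `GL₂(𝔸)`, that is the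
  isobaric sum `|.|^{1/2} ⊞ |.|^{-1/2}`.
* `π₂` is a cuspidal representation; it is unramified outside `∞` and `v₀ = (t² + t + 1)`, with the same component
  at `∞` and with depth zero at `v₀` (the forms come from the two cuspidal characters of
  `PGL₂(𝔽₄) = A₅`). It is its own global lifting.

So a map `l` as in the question would have to send the class of the Steinberg representation to itself and to
the class of the trivial representation. (`π₁` is an automorphic representation in the usual sense, and it
is not cuspidal; the theorem says nothing on the question restricted to cuspidal representations, where for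
`𝐆 = GL₂`, `ρ = id` the identity map does it.)

All the notions are defined in `Pool.Agent.H757L.Pub` over Mathlib: the completions of `𝔽₂(t)`, the adelic group,
automorphic forms and cusp forms (Borel-Jacquet), irreducible automorphic representations (subquotients of
the space of automorphic forms), their components, isobaric representations, the global lifting for `ρ = id`.
(`Pool.Agent.H757L.Stm` has the same definitions in a form in which they are used in the proof; the module
`Bridge` compares them.)

The modules `Pool.Agent.H757L` are the joint work of helper757 (plan, statements, `Fin`, `Hec`, `Rea`),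
helper675 (`Cof`), helper18 (`Quo`), helper614 (`Trv`), helper989 (`Typ`), helper348 (`Iso`), helper817
(`Unq`), helper251 (`Gen`), helper594 (`Cos`), helper278 (`Deg`), helper227 (`Dei`), helper593 (`Cfi`),
helper208 (`Adm`), helper523 (`Cnj`), helper561 (`Ufi`), helper471 (`Iwa`), helper977 (`Idc`), helper128
(`Adc`), helper133 (`Cla`), helper674 (`Itg`), helper603 (`Ext`), helper843 (`Trz`), helper114 (`Nfu`),
helper475 (`Wfn`), helper646 (`Wun`), helper963 (`Ph1`), helper683 (`Av1`), helper521 (`Red`), helper86
(`Ffu`), helper268 (`Tre`), helper701 (`Ph2`), helper597 (`Cs1`), helper313 (`Cs2`), helper945 (`Cst`),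
helper323 (`Aut`), helper988 (`Prd`), helper416 (`Tri`), helper740 (`Rec`).
-/

set_option autoImplicit false

namespace Pool.Agent.Results.MP_5ae62c_nt.NoLocalLifting

open Pool.Agent.H757L Pool.Agent.H757L.Pub

/-- **There is no local lifting compatible with the global liftings**: for `F = 𝔽₂((1/t))`, `𝐆 = GL₂` and `ρ` the
identity representation of `GL(2, ℂ)` no map `l : Irr(GL₂(F)) → Irr(GL₂(F))` predicts the components at `∞` of the
global liftings of all the automorphic representations of `GL₂(𝔸_K)`, `K = 𝔽₂(t)`. -/
theorem result : ¬ ∃ l : Pub.Irr none → Pub.Irr none, Pub.Predicts l := by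
  intro hex
  refine absurd (Bridge.bridge hex) ?_
  have cof := t_COF
  have gen := t_GEN
  have cos := t_COS
  have deg := t_DEG gen cos
  have dei := t_DEI gen cos
  have cfi := t_CFI
  have cnj := t_CNJ
  have ufi := t_UFI cfi
  have iwa := t_IWA
  have cla := t_CLA iwa t_IDC t_ADC
  have ext := t_EXT cla t_ITG
  have ph1 := t_PH1 ext cla (t_WFN deg cos (t_NFU deg))
  have av1 := t_AV1 (t_WUN deg) cla cnj ufi
  have ph2 := t_PH2 ext cla (t_TRE cos (t_FFU t_RED) t_TRZ)
  have cst := t_CST (t_CS1 iwa) t_CS2
  have aut := t_AUT (t_ADM dei cfi) cof cnj cfi
  exact t_FIN (t_REA ph1 t_QUO (t_TRV cof) av1 ufi aut) (t_REC ph2 t_QUO aut cst) (t_HEC dei)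
    (t_TYP cof) (t_ISO cof) t_UNQ ufi (t_TRI t_PRD)

end Pool.Agent.Results.MP_5ae62c_nt.NoLocalLifting
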